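import Pool.Agent.W2helper58.IR.Stm

/-!
# The finite attack (piece FIN3 of helper58's project IR)
-/

set_option autoImplicit false

namespace Pool.Agent.W2helper53.IR

open Pool.Agent.W2helper58.IR

section

variable {X : Type}

theorem length_ans (q : List Bool → X) (ω : X → Bool) (n : ℕ) : (ans q ω n).length = n := by
  induction n with
  | zero => rfl
  | succ n ih => simp [ans, ih]

theorem drop_ans (q : List Bool → X) (ω : X → Bool) (m j : ℕ) :
    (ans q ω (m + j)).drop j = ans q ω m := by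
  induction j with
  | zero => simp
  | succ j ih =>
    rw [← Nat.add_assoc]
    simp only [ans, List.drop_succ_cons, ih]

end

theorem p_fin3 : P_fin3 := by
  classical
  intro h1 h2a h2 X R S _ _ _ _ _ Y
  obtain ⟨ε, hε⟩ : ∃ ε : ℝ, ε = 1 / (96 * ((Y.t : ℝ) + 1)) := ⟨_, rfl⟩
  obtain ⟨K, hK⟩ : ∃ K : ℕ, K = 4096 * (Y.t + 1) ^ 2 := ⟨_, rfl⟩
  have hε0 : 0 < ε := by rw [hε]; positivity
  have hK0 : 0 < K := by rw [hK]; positivity
  obtain ⟨k, hk, hF⟩ := h2 X R S Y ε K hε0 hK0
  obtain ⟨qn, hqn⟩ : ∃ qn : List Bool → List Bool → X,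
    qn = fun p a => Y.nx ε p (Y.hist ε p a) := ⟨_, rfl⟩
  have hch : ∀ p a, ∃ v' : R × (X → Bool),
      (∀ x, ¬ Y.heavy ε p (Y.hist ε p a) x) → (Y.post p (Y.hist ε p a)).Nonempty →
      ∑ v ∈ Y.post p (Y.hist ε p a), (Nat.card {s : S // ¬ Y.ok (Y.sk v'.1 v'.2)
        (Y.ct p s v.2) s (Y.ptc v' v.2)} : ℝ) ≤
      ∑ v ∈ Y.post p (Y.hist ε p a), (Nat.card {s : S // ¬ Y.ok (Y.sk v.1 v.2)
        (Y.ct p s v.2) s v.2} : ℝ) +
        3 * Y.t * ε * (Y.post p (Y.hist ε p a)).card * Fintype.card S := by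
    intro p a
    by_cases h : (∀ x, ¬ Y.heavy ε p (Y.hist ε p a) x) ∧ (Y.post p (Y.hist ε p a)).Nonempty
    · obtain ⟨v', _, hv'⟩ := h1 X R S Y ε p (Y.hist ε p a) hε0.le h.1 h.2
      exact ⟨v', fun _ _ => hv'⟩
    · exact ⟨Classical.arbitrary _, fun h3 h4 => absurd ⟨h3, h4⟩ h⟩
  choose b0 hb0 using hch
  refine ⟨qn, fun p a => b0 p (a.drop (K - k)), ?_⟩
  have hd : ∀ v : R × (X → Bool), (ans (qn (Y.pk v.1 v.2)) v.2 (4096 * (Y.t + 1) ^ 2)).drop (K - k)
      = ans (qn (Y.pk v.1 v.2)) v.2 k := by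
    intro v
    have h3 := drop_ans (qn (Y.pk v.1 v.2)) v.2 k (K - k)
    rw [Nat.add_sub_of_le hk.le] at h3
    rw [← hK]
    exact h3
  simp only [hd]
  -- the heavy ones
  obtain ⟨F, hFdef⟩ : ∃ F : Finset (R × (X → Bool)), F = Finset.univ.filter fun v =>
    ∃ x, Y.heavy ε (Y.pk v.1 v.2) (Y.hist ε (Y.pk v.1 v.2)
      (ans (qn (Y.pk v.1 v.2)) v.2 k)) x := ⟨_, rfl⟩
  have hF' : (F.card : ℝ) * (ε * K) ≤ Y.t * Fintype.card (R × (X → Bool)) := by
    rw [hFdef, hqn]
    exact hF
  have hFN : (F.card : ℝ) ≤ 1 / 32 * Fintype.card (R × (X → Bool)) := by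
    have h3 : ε * K = 128 / 3 * ((Y.t : ℝ) + 1) := by
      rw [hε, hK]
      push_cast
      field_simp
      ring
    rw [h3] at hF'
    have h4 : (0 : ℝ) < (Y.t : ℝ) + 1 := by positivity
    have h5 : (0 : ℝ) ≤ (Fintype.card (R × (X → Bool)) : ℝ) := by positivity
    have h6 : (0 : ℝ) ≤ (F.card : ℝ) := by positivity
    have h7 : (F.card : ℝ) * (128 / 3) ≤ Fintype.card (R × (X → Bool)) := by
      by_contra h8
      push Not at h8
      have h9 : ((Y.t : ℝ) + 1) * Fintype.card (R × (X → Bool)) <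
          ((Y.t : ℝ) + 1) * ((F.card : ℝ) * (128 / 3)) := mul_lt_mul_of_pos_left h8 h4
      nlinarith
    linarith
  -- abbreviations
  obtain ⟨B, hB⟩ : ∃ B : R × (X → Bool) → ℝ, B = fun v => (Nat.card {s : S // ¬ Y.ok
      (Y.sk (b0 (Y.pk v.1 v.2) (ans (qn (Y.pk v.1 v.2)) v.2 k)).1
        (b0 (Y.pk v.1 v.2) (ans (qn (Y.pk v.1 v.2)) v.2 k)).2)
      (Y.ct (Y.pk v.1 v.2) s v.2) s
      (Y.ptc (b0 (Y.pk v.1 v.2) (ans (qn (Y.pk v.1 v.2)) v.2 k)) v.2)} : ℝ) := ⟨_, rfl⟩
  obtain ⟨C, hC⟩ : ∃ C : R × (X → Bool) → ℝ, C = fun v => (Nat.card {s : S // ¬ Y.ok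
      (Y.sk v.1 v.2) (Y.ct (Y.pk v.1 v.2) s v.2) s v.2} : ℝ) := ⟨_, rfl⟩
  have hBC : ∑ v, B v ≤ ∑ v, C v +
      1 / 16 * (Fintype.card (R × (X → Bool)) * Fintype.card S) := by
    have hcard : ∀ P : S → Prop, (Nat.card {s : S // P s} : ℝ) ≤ Fintype.card S := by
      intro P
      have h3 := Finite.card_subtype_le P
      rw [Nat.card_eq_fintype_card (α := S)] at h3
      exact_mod_cast h3
    have hC0 : ∀ v, 0 ≤ C v := fun v => by rw [hC]; positivity
    have ht0 : (0 : ℝ) ≤ 3 * Y.t * ε * Fintype.card S := by positivity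
    -- classes
    let key : R × (X → Bool) → List Bool × List Bool := fun v =>
      (Y.pk v.1 v.2, ans (qn (Y.pk v.1 v.2)) v.2 k)
    have hclass : ∀ κ ∈ Finset.univ.image key,
        ∑ v ∈ Finset.univ.filter (fun v => key v = κ), B v ≤
        ∑ v ∈ Finset.univ.filter (fun v => key v = κ),
          (C v + 3 * Y.t * ε * Fintype.card S + Fintype.card S * (if v ∈ F then 1 else 0)) := by
      rintro ⟨p, a⟩ hκ
      obtain ⟨v0, _, hv0⟩ := Finset.mem_image.1 hκ
      have hv0' : Y.pk v0.1 v0.2 = p ∧ ans (qn (Y.pk v0.1 v0.2)) v0.2 k = a := by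
        simpa [key] using hv0
      have hla : a.length = k := by rw [← hv0'.2, length_ans]
      have hcl : Finset.univ.filter (fun v => key v = (p, a)) = Y.post p (Y.hist ε p a) := by
        ext v
        simp only [key, Sys.post, Finset.mem_filter, Finset.mem_univ, true_and, Prod.mk.injEq]
        refine and_congr_right fun hp => ?_
        have h3 := h2a X R S Y ε p v.2 a
        rw [hla] at h3
        rw [hp, hqn]
        exact h3
      have hmem : ∀ v ∈ Y.post p (Y.hist ε p a), Y.pk v.1 v.2 = p ∧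
          ans (qn (Y.pk v.1 v.2)) v.2 k = a := by
        intro v hv
        rw [← hcl, Finset.mem_filter] at hv
        simpa [key] using hv.2
      rw [hcl]
      by_cases hg : ∀ x, ¬ Y.heavy ε p (Y.hist ε p a) x
      · have hne : (Y.post p (Y.hist ε p a)).Nonempty := by
          refine ⟨v0, ?_⟩
          rw [← hcl, Finset.mem_filter]
          exact ⟨Finset.mem_univ _, hv0⟩
        have h3 := hb0 p a hg hne
        have h4 : ∑ v ∈ Y.post p (Y.hist ε p a), B v =
            ∑ v ∈ Y.post p (Y.hist ε p a), (Nat.card {s : S // ¬ Y.ok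
              (Y.sk (b0 p a).1 (b0 p a).2) (Y.ct p s v.2) s (Y.ptc (b0 p a) v.2)} : ℝ) := by
          refine Finset.sum_congr rfl fun v hv => ?_
          obtain ⟨h5, h6⟩ := hmem v hv
          simp only [hB, h6]
          rw [h5]
        have h7 : ∑ v ∈ Y.post p (Y.hist ε p a), C v =
            ∑ v ∈ Y.post p (Y.hist ε p a), (Nat.card {s : S // ¬ Y.ok (Y.sk v.1 v.2)
              (Y.ct p s v.2) s v.2} : ℝ) := by
          refine Finset.sum_congr rfl fun v hv => ?_
          obtain ⟨h5, h6⟩ := hmem v hv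
          simp only [hC]
          rw [h5]
        have h8 : ∑ v ∈ Y.post p (Y.hist ε p a), (C v + 3 * Y.t * ε * Fintype.card S) ≤
            ∑ v ∈ Y.post p (Y.hist ε p a),
              (C v + 3 * Y.t * ε * Fintype.card S + Fintype.card S * (if v ∈ F then 1 else 0)) := by
          refine Finset.sum_le_sum fun v _ => ?_
          have : (0 : ℝ) ≤ Fintype.card S * (if v ∈ F then 1 else 0) := by positivity
          linarith
        refine le_trans ?_ h8
        rw [Finset.sum_add_distrib, Finset.sum_const, nsmul_eq_mul, h4, h7]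
        refine h3.trans (le_of_eq ?_)
        ring
      · push Not at hg
        refine Finset.sum_le_sum fun v hv => ?_
        obtain ⟨h5, h6⟩ := hmem v hv
        have h7 : v ∈ F := by
          rw [hFdef, Finset.mem_filter]
          refine ⟨Finset.mem_univ _, ?_⟩
          rw [h6, h5]
          exact hg
        rw [if_pos h7, mul_one]
        have h8 : B v ≤ Fintype.card S := by
          rw [hB]
          exact hcard _
        have h9 := hC0 v
        linarith
    have hpart : ∀ f : R × (X → Bool) → ℝ, ∑ κ ∈ Finset.univ.image key,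
        ∑ v ∈ Finset.univ.filter (fun v => key v = κ), f v = ∑ v, f v := fun f =>
      Finset.sum_fiberwise_of_maps_to
        (fun v _ => Finset.mem_image_of_mem key (Finset.mem_univ v)) f
    have h10 := Finset.sum_le_sum hclass
    rw [hpart, hpart, Finset.sum_add_distrib, Finset.sum_add_distrib, Finset.sum_const,
      nsmul_eq_mul, ← Finset.mul_sum, Finset.sum_boole, Finset.filter_mem_eq_inter,
      Finset.univ_inter, Finset.card_univ] at h10
    have h11 : 3 * (Y.t : ℝ) * ε ≤ 1 / 32 := by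
      rw [hε]
      have : (0 : ℝ) < (Y.t : ℝ) + 1 := by positivity
      rw [mul_one_div, div_le_div_iff₀ (by positivity) (by norm_num)]
      linarith
    have h12 : (0 : ℝ) ≤ Fintype.card S := by positivity
    have h13 : (0 : ℝ) ≤ (Fintype.card (R × (X → Bool)) : ℝ) := by positivity
    have h14 : (Fintype.card (R × (X → Bool)) : ℝ) * (3 * Y.t * ε * Fintype.card S) ≤
        1 / 32 * (Fintype.card (R × (X → Bool)) * Fintype.card S) := by
      have := mul_le_mul_of_nonneg_right h11 (mul_nonneg h13 h12)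
      calc (Fintype.card (R × (X → Bool)) : ℝ) * (3 * Y.t * ε * Fintype.card S)
          = 3 * Y.t * ε * (Fintype.card (R × (X → Bool)) * Fintype.card S) := by ring
        _ ≤ _ := this
    have h15 : (Fintype.card S : ℝ) * F.card ≤
        1 / 32 * (Fintype.card (R × (X → Bool)) * Fintype.card S) := by
      have := mul_le_mul_of_nonneg_left hFN h12
      calc (Fintype.card S : ℝ) * F.card ≤
          Fintype.card S * (1 / 32 * Fintype.card (R × (X → Bool))) := this
        _ = _ := by ring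
    linarith
  rw [hB, hC] at hBC
  exact hBC

end Pool.Agent.W2helper53.IR
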