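import Pool.Agent.W2helper58.IR.Stm

/-!
# The questions of an oracle algorithm (piece TREE of helper58's project IR)
-/

set_option autoImplicit false

namespace Pool.Agent.W2helper53.IR

open Pool.Agent.NPC Pool.Agent.H620R2.Gauge Pool.Agent.W2helper58.IR

open Pool.Agent.W2helper58.GU (acc)

theorem p_tree : P_tree := by
  intro M
  obtain ⟨b, hb⟩ := M.next_length
  refine ⟨b, fun A x => ?_⟩
  have key : ∀ (n : ℕ) (a : List Bool), a.length + n ≤ M.p.eval x.length →
      (asks M A x n a).card ≤ n ∧ (∀ q ∈ asks M A x n a, q.length ≤ b.eval x.length) ∧
      ((M.run A x n a).getD []).length ≤ b.eval x.length ∧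
      ∀ A' : Oracle, (∀ q ∈ asks M A x n a, A' q = A q) →
        asks M A' x n a = asks M A x n a ∧ M.run A' x n a = M.run A x n a := by
    intro n
    induction n with
    | zero =>
      intro a _
      simp [asks, Alg.run]
    | succ n ih =>
      intro a ha
      have hD := hb x a (by omega)
      rcases hq : M.D (pairBits x a) with _ | ⟨c, q⟩
      · simp [asks, Alg.run, hq]
      · cases c with
        | true =>
          rw [hq, List.length_cons] at hD
          simp only [asks, Alg.run, hq, Finset.card_empty, Option.getD_some]
          refine ⟨by omega, by simp, by omega, fun A' _ => by simp⟩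
        | false =>
          obtain ⟨h1, h2, h3, h4⟩ := ih (a ++ [A q]) (by
            rw [List.length_append, List.length_singleton]; omega)
          simp only [asks, Alg.run, hq]
          refine ⟨(Finset.card_insert_le _ _).trans (by omega), ?_, h3, ?_⟩
          · intro r hr
            rcases Finset.mem_insert.1 hr with rfl | hr
            · rw [hq, List.length_cons] at hD
              omega
            · exact h2 r hr
          · intro A' hA'
            rw [hA' q (Finset.mem_insert_self _ _)]
            obtain ⟨h5, h6⟩ := h4 A' fun r hr => hA' r (Finset.mem_insert_of_mem hr)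
            exact ⟨by rw [h5], h6⟩
  obtain ⟨h1, h2, h3, h4⟩ := key (M.p.eval x.length) [] (by simp)
  refine ⟨h1, h2, h3, fun A' hA' => ?_⟩
  obtain ⟨h5, h6⟩ := h4 A' hA'
  exact ⟨h5, by simp only [acc, Alg.out, h6]⟩

end Pool.Agent.W2helper53.IR
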